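import Pool.Agent.Y7.EJ.StmO

/-!
# Rotation lemma (helper954)
-/

set_option autoImplicit false

open Set

namespace Pool.Agent.Y954.EJ

lemma gron (F F' P P' : ℝ → ℝ) (a b : ℝ) (hab : a ≤ b) (hF : ContinuousOn F (Icc a b))
    (hP : ContinuousOn P (Icc a b))
    (h : ∀ t ∈ Ioo a b, HasDerivAt F (F' t) t ∧ HasDerivAt P (P' t) t ∧ |F' t| ≤ P' t) :
    |F b - F a| ≤ P b - P a := by
  have ha : a ∈ Icc a b := left_mem_Icc.2 hab
  have hb : b ∈ Icc a b := right_mem_Icc.2 hab
  have key : ∀ s : ℝ, s = 1 ∨ s = -1 → s * (F b - F a) ≤ P b - P a := by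
    intro s hs
    have h1 : AntitoneOn (fun t => s * F t - P t) (Icc a b) := by
      apply antitoneOn_of_deriv_nonpos (convex_Icc a b)
      · exact (hF.const_mul s |>.congr fun t _ => rfl).sub hP
      · intro t ht
        rw [interior_Icc] at ht
        obtain ⟨h1, h2, -⟩ := h t ht
        exact ((h1.const_mul s).sub h2).differentiableAt.differentiableWithinAt
      · intro t ht
        rw [interior_Icc] at ht
        obtain ⟨h1, h2, h3⟩ := h t ht
        have h5 : HasDerivAt (fun t => s * F t - P t) (s * F' t - P' t) t :=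
          (h1.const_mul s).sub h2
        rw [h5.deriv]
        have h4 := abs_le.1 h3
        rcases hs with rfl | rfl <;> linarith [h4.1, h4.2]
    have h2 := h1 ha hb hab
    simp only at h2
    linarith
  rw [abs_le]
  have h1 := key 1 (Or.inl rfl)
  have h2 := key (-1) (Or.inr rfl)
  constructor <;> linarith

theorem t_ROT : Pool.Agent.Y7.EJ.S_ROT := by
  intro X Y X' Y' A A' P P' L a b η hab hX hY hA hP hd hA0 hη
  have hu := gron (fun t => X t * Real.cos (A t) + Y t * Real.sin (A t))
    (fun t => (X' t + L * Y t ^ 2) * Real.cos (A t) + (Y' t - L * X t * Y t) * Real.sin (A t))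
    P P' a b hab
    ((hX.mul (Real.continuous_cos.comp_continuousOn hA)).add
      (hY.mul (Real.continuous_sin.comp_continuousOn hA))) hP (fun t ht => by
      obtain ⟨h1, h2, h3, h4, h5, h6⟩ := hd t ht
      refine ⟨?_, h4, ?_⟩
      · have h7 := (h1.mul h3.cos).add (h2.mul h3.sin)
        refine h7.congr_deriv ?_
        rw [h5]
        ring
      · refine le_trans ?_ h6
        refine (abs_add_le _ _).trans (add_le_add ?_ ?_)
        · rw [abs_mul]
          exact mul_le_of_le_one_right (abs_nonneg _) (Real.abs_cos_le_one _)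
        · rw [abs_mul]
          exact mul_le_of_le_one_right (abs_nonneg _) (Real.abs_sin_le_one _))
  have hv := gron (fun t => -(X t * Real.sin (A t)) + Y t * Real.cos (A t))
    (fun t => -((X' t + L * Y t ^ 2) * Real.sin (A t)) + (Y' t - L * X t * Y t) * Real.cos (A t))
    P P' a b hab
    ((hX.mul (Real.continuous_sin.comp_continuousOn hA)).neg.add
      (hY.mul (Real.continuous_cos.comp_continuousOn hA))) hP (fun t ht => by
      obtain ⟨h1, h2, h3, h4, h5, h6⟩ := hd t ht
      refine ⟨?_, h4, ?_⟩
      · have h7 := (h1.mul h3.sin).neg.add (h2.mul h3.cos)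
        refine h7.congr_deriv ?_
        rw [h5]
        ring
      · refine le_trans ?_ h6
        refine (abs_add_le _ _).trans (add_le_add ?_ ?_)
        · rw [abs_neg, abs_mul]
          exact mul_le_of_le_one_right (abs_nonneg _) (Real.abs_sin_le_one _)
        · rw [abs_mul]
          exact mul_le_of_le_one_right (abs_nonneg _) (Real.abs_cos_le_one _))
  simp only [hA0, Real.cos_zero, Real.sin_zero, mul_one, mul_zero, add_zero, neg_zero,
    zero_add] at hu hv
  set c := Real.cos (A b) with hc
  set s := Real.sin (A b) with hs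
  have hcs : s ^ 2 + c ^ 2 = 1 := Real.sin_sq_add_cos_sq _
  have hc1 : |c| ≤ 1 := Real.abs_cos_le_one _
  have hs1 : |s| ≤ 1 := Real.abs_sin_le_one _
  have hu' := hu.trans hη
  have hv' := hv.trans hη
  have e1 : X b - (X a * c - Y a * s) = (X b * c + Y b * s - X a) * c -
      (-(X b * s) + Y b * c - Y a) * s := by
    have : X b * (s ^ 2 + c ^ 2) = X b := by rw [hcs, mul_one]
    linear_combination -this
  have e2 : Y b - (X a * s + Y a * c) = (X b * c + Y b * s - X a) * s +
      (-(X b * s) + Y b * c - Y a) * c := by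
    have : Y b * (s ^ 2 + c ^ 2) = Y b := by rw [hcs, mul_one]
    linear_combination -this
  constructor
  · rw [e1]
    refine (abs_sub _ _).trans ?_
    rw [abs_mul, abs_mul]
    have h1 := mul_le_of_le_one_right (abs_nonneg (X b * c + Y b * s - X a)) hc1
    have h2 := mul_le_of_le_one_right (abs_nonneg (-(X b * s) + Y b * c - Y a)) hs1
    linarith
  · rw [e2]
    refine (abs_add_le _ _).trans ?_
    rw [abs_mul, abs_mul]
    have h1 := mul_le_of_le_one_right (abs_nonneg (X b * c + Y b * s - X a)) hs1
    have h2 := mul_le_of_le_one_right (abs_nonneg (-(X b * s) + Y b * c - Y a)) hc1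
    linarith

end Pool.Agent.Y954.EJ
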